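import Pool.Agent.N998.CT.Asy

set_option autoImplicit false

/-!
# Smooth subvarieties of codimension two are complete intersections, for almost all degrees

Let `X ⊂ ℙ^N`, `N ≥ 7`, be a smooth subvariety of codimension two and degree `d` which is not a
complete intersection. It is subcanonical (Barth-Larsen), `ω_X = O_X(k)`; there is a vector bundle `E`
of rank two on `ℙ^N` with the Chern classes `c₁ = k + N + 1`, `c₂ = d` and a section `s` with the
scheme of zeros `X`, and `E|X = N_X` (Serre). We use the following facts.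

(1) The Riemann-Roch conditions for `T² - c₁ T + d`.

(2) `N_X(-1)` is globally generated, with the Chern classes `(c₁ - 2) h`, `(d - c₁ + 1) h²`. Let `M` be
the tautological class on `P = P(N_X(-1))` (line bundle quotients). It is nef, and the intersection
number of `M^(j+1)` and `h^(N-2-j)` on `P` is `d h_j`, where `h_0 = 1`, `h_1 = c₁ - 2`,
`h_(j+2) = (c₁ - 2) h_(j+1) - (d - c₁ + 1) h_j`. So `h_j ≥ 0` for `j ≤ N - 2`.

(3) Let `4 d ≤ c₁²`. Then `E` is not stable (Barth, Bogomolov). Let `a` be the largest integer such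
that `F = E(-a)` has a section `t ≠ 0`, and `b = c₁ - a ≤ a`. The scheme of zeros `Z` of `t` has
codimension two; it is not empty, since `E` does not split; and `deg Z = c₂(F) = d - a b > 0`. The form
`g = ⟨t, s⟩` of degree `b` vanishes on `X`, and no form of smaller degree does; so `b > 0`. We have
`t|X ≠ 0`: otherwise `g` is in the square of the ideal of `X`, and the partial derivatives of `g`
vanish on `X`. So `t` defines an effective divisor of the class `M - (a - 1) h` on `P`; its
intersection number with `M^j`, `h^(N-2-j)` is not negative: `h_j ≥ (a - 1) h_(j-1)` for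
`1 ≤ j ≤ N - 2`.

We show: for all real numbers `A ≥ 1`, all sufficiently large `N` and `1 ≤ Y ≤ N ^ A` there are at
most

  `4 A Y log N / N`

integers `d` between `1` and `Y` for which there is an integer `k` with these conditions. So for all
the other degrees `d ≤ Y` every smooth subvariety of `ℙ^N` of codimension two and degree `d` is a
complete intersection.

Proof. Put `D = c₁² - 4 d`. If `D < 0`, then (2) gives `|D| ≤ 256 d / N²`. If `D ≥ 0`, then
(3) gives `z (a - 1) ^ (N - 4) ≤ (b - 1) ^ (N - 2)`, `z = d - a b ≥ 1`, and `D ≤ (a - b)²` is at most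
`d (log N / N)²`, up to a constant. So `|D| ≤ Y / N` in both cases, and `c₁ ≤ 3 √Y`. By
`MP_b01859_ag.FewExceptionalClasses` of the starting files (large sieve, bound of Burgess) there are
at most `√Y / N²` integers `D` of this size which satisfy (1) and are not squares; this gives at most
`Y / N` pairs `(c₁, D)`. If `D` is a square, then `d = (x + 1) (y + 1)` with integers `x ≥ y`, and (3)
gives `y ≥ N - 2` and `(x / y) ^ (N - 2) ≤ 1 + x - y`; so `x - y ≤ 2 A y log N / (N - 2)`, and
`y ≤ √Y`.
-/

open Filter Polynomial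

namespace Pool.Agent.Results.MP_014caa_ag.AlmostAllDegreesSplit

open Pool.Agent.R920.CH Pool.Agent.R852.BC Pool.Agent.N998.CT

/-- The numbers `h_0 = 1`, `h_1 = c₁ - 2`, `h_(j+2) = (c₁ - 2) h_(j+1) - (c₂ - c₁ + 1) h_j`: the
coefficients of `1 / (1 - (c₁ - 2) T + (c₂ - c₁ + 1) T²)`. -/
def segre (c₁ c₂ : ℤ) : ℕ → ℤ
  | 0 => 1
  | 1 => c₁ - 2
  | j + 2 => (c₁ - 2) * segre c₁ c₂ (j + 1) - (c₂ - c₁ + 1) * segre c₁ c₂ j

/-- The conditions (1) to (3) on the integers `k` and `d`, for a smooth subvariety `X` of codimension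
two and degree `d` of `ℙ^N`, `ω_X = O_X(k)`, which is not a complete intersection. -/
structure Conditions (N : ℕ) (k d : ℤ) : Prop where
  pos : 0 < d
  riemannRoch : RiemannRoch N (X ^ 2 - C (k + N + 1) * X + C d)
  positive : ∀ j : ℕ, j + 2 ≤ N → 0 ≤ segre (k + N + 1) d j
  unstable : 4 * d ≤ (k + N + 1) ^ 2 → ∃ a b : ℤ, a + b = k + N + 1 ∧ 0 < b ∧ b ≤ a ∧ a * b < d ∧
    ∀ j : ℕ, j + 3 ≤ N → (a - 1) * segre (k + N + 1) d j ≤ segre (k + N + 1) d (j + 1)

lemma segre_eq (c₁ c₂ : ℤ) : ∀ j : ℕ, segre c₁ c₂ j = seg (c₁ - 2) (c₂ - c₁ + 1) j := by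
  intro j
  induction j using Nat.twoStepInduction with
  | zero => rfl
  | one => rfl
  | more n ih1 ih2 => rw [segre, seg, ih1, ih2]

lemma toCond (N : ℕ) (k d : ℤ) (h : Conditions N k d) : Cond N (k + N + 1) d where
  pos := h.pos
  rr := h.riemannRoch
  seg_nonneg := fun j hj => by rw [← segre_eq]; exact h.positive j hj
  unst := fun hD => by
    obtain ⟨a, b, h1, h2, h3, h4, h5⟩ := h.unstable hD
    exact ⟨a, b, h1, h2, h3, h4, fun j hj => by
      rw [← segre_eq, ← segre_eq]; exact h5 j hj⟩

open Classical in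
/-- **Almost all degrees.** -/
theorem result (A : ℝ) (hA : 1 ≤ A) : ∃ N₀ : ℕ, ∀ N : ℕ, N₀ ≤ N → ∀ Y : ℕ, 1 ≤ Y →
    (Y : ℝ) ≤ (N : ℝ) ^ A →
      (((Finset.Icc 1 Y).filter fun d : ℕ => ∃ k : ℤ, Conditions N k d).card : ℝ) ≤
        4 * A * Y * Real.log N / N := by
  refine eventually_atTop.mp ?_
  filter_upwards [count_deg A hA] with N h Y hY1 hYA
  have h1 := h (Y : ℝ) (by exact_mod_cast hY1) hYA
    (((Finset.Icc 1 Y).filter fun d : ℕ => ∃ k : ℤ, Conditions N k d).image fun d : ℕ => (d : ℤ))
    (by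
      intro d hd
      obtain ⟨e, he, rfl⟩ := Finset.mem_image.mp hd
      rw [Finset.mem_filter, Finset.mem_Icc] at he
      obtain ⟨⟨-, h2⟩, k, h3⟩ := he
      refine ⟨by exact_mod_cast h2, k + N + 1, toCond N k e h3⟩)
  rw [Finset.card_image_of_injective _ Nat.cast_injective] at h1
  exact h1

end Pool.Agent.Results.MP_014caa_ag.AlmostAllDegreesSplit
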