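import Pool.Agent.N998.CT.Asy

set_option autoImplicit false

/-!
# Smooth subvarieties of codimension two which are not complete intersections: the invariants

Let `X ⊂ ℙ^N`, `N ≥ 7`, be a smooth subvariety of codimension two and degree `d` which is not a
complete intersection. It is subcanonical (Barth-Larsen), `ω_X = O_X(k)`; there is a vector bundle `E`
of rank two on `ℙ^N` with the Chern classes `c₁ = k + N + 1`, `c₂ = d` and a section `s` with the
scheme of zeros `X`, and `E|X = N_X` (Serre). We use the following facts.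

(1) The Riemann-Roch conditions for `T² - c₁ T + d`.

(2) `N_X(-1)` is globally generated, with the Chern classes `(c₁ - 2) h`, `(d - c₁ + 1) h²`. Let `M` be
the tautological class on `P = P(N_X(-1))` (line bundle quotients). It is nef, and the intersection
number of `M^(j+1)` and `h^(N-2-j)` on `P` is `d h_j`, where `h_0 = 1`, `h_1 = c₁ - 2`,
`h_(j+2) = (c₁ - 2) h_(j+1) - (d - c₁ + 1) h_j`. So `h_j ≥ 0` for `j ≤ N - 2`.

(3) Let `4 d ≤ c₁²`. Then `E` is not stable (Barth, Bogomolov). Let `a` be the largest integer such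
that `F = E(-a)` has a section `t ≠ 0`, and `b = c₁ - a ≤ a`. The scheme of zeros `Z` of `t` has
codimension two; it is not empty, since `E` does not split; and `deg Z = c₂(F) = d - a b > 0`. The form
`g = ⟨t, s⟩` of degree `b` vanishes on `X`, and no form of smaller degree does; so `b > 0`. We have
`t|X ≠ 0`: otherwise `g` is in the square of the ideal of `X`, and the partial derivatives of `g`
vanish on `X`. So `t` defines an effective divisor of the class `M - (a - 1) h` on `P`; its
intersection number with `M^j`, `h^(N-2-j)` is not negative: `h_j ≥ (a - 1) h_(j-1)` for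
`1 ≤ j ≤ N - 2`.

We show, for all `ε > 0` and all sufficiently large `N`: if `d < N ^ (4 √e + 2 - ε)`
(`4 √e + 2 = 8.59…`), then `k = a + b - N - 1` and `d = a b` with integers `a ≥ b ≥ N - 1` such that

  `((a - 1) / (b - 1)) ^ (N - 2) ≤ 1 + a - b`;

that is, `X` has the invariants of a complete intersection of hypersurfaces of almost equal degrees,
`a / b ≤ 1 + 9 log N / N`. So every smooth subvariety of codimension two whose degree
`d < N ^ (4 √e + 2 - ε)` is not a product of two integers `a ≥ b ≥ N - 1` with this property is a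
complete intersection; for example, if `d` is a prime number it is in a hyperplane.

Proof. The roots of `T² - (c₁ - 2) T + (d - c₁ + 1)` are `x`, `y`; `D = c₁² - 4 d`. If `D < 0`, they
are `ρ e^(± i θ)`, and `h_j = ρ^j sin ((j + 1) θ) / sin θ`; so (2) gives `θ ≤ π / (N - 1)`, and
`|D| ≤ 256 d / N²`. If `D ≥ 0`, put `v_j = h_j - (a - 1) h_(j-1) ≥ 0`, `z = d - a b ≥ 1`. By the
recursion `v_(j+1) - (b - 1) v_j = (a - 1) (v_j - (b - 1) v_(j-1)) - z v_(j-1)`, so that
`z (a - 1) ^ (N - 4) ≤ (b - 1) ^ (N - 2)`; and `D ≤ (a - b)²` is at most `d (log N / N)²`, up to a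
constant. In both cases `|D| < N ^ (4 √e - ε / 2)`. By the bound of Burgess and the method of
Vinogradov (`BurgessDegree` of the starting files) `D` is a square, and `x`, `y` are integers. Then
`h_(j+1) = y^(j+1) + x h_j`, and (3) gives `h_j ≤ (a - 1 - x) h_j ≤ y^(j+1)` for `j = N - 3`, while
`(j + 1) y^j ≤ h_j` and `(x - y) h_j = x^(j+1) - y^(j+1)`.
-/

open Filter Polynomial

namespace Pool.Agent.Results.MP_014caa_ag.AlmostEqualDegrees

open Pool.Agent.R920.CH Pool.Agent.R852.BC Pool.Agent.N998.CT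

/-- The numbers `h_0 = 1`, `h_1 = c₁ - 2`, `h_(j+2) = (c₁ - 2) h_(j+1) - (c₂ - c₁ + 1) h_j`: the
coefficients of `1 / (1 - (c₁ - 2) T + (c₂ - c₁ + 1) T²)`. -/
def segre (c₁ c₂ : ℤ) : ℕ → ℤ
  | 0 => 1
  | 1 => c₁ - 2
  | j + 2 => (c₁ - 2) * segre c₁ c₂ (j + 1) - (c₂ - c₁ + 1) * segre c₁ c₂ j

/-- The conditions (1) to (3) on the integers `k` and `d`, for a smooth subvariety `X` of codimension
two and degree `d` of `ℙ^N`, `ω_X = O_X(k)`, which is not a complete intersection. -/
structure Conditions (N : ℕ) (k d : ℤ) : Prop where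
  pos : 0 < d
  riemannRoch : RiemannRoch N (X ^ 2 - C (k + N + 1) * X + C d)
  positive : ∀ j : ℕ, j + 2 ≤ N → 0 ≤ segre (k + N + 1) d j
  unstable : 4 * d ≤ (k + N + 1) ^ 2 → ∃ a b : ℤ, a + b = k + N + 1 ∧ 0 < b ∧ b ≤ a ∧ a * b < d ∧
    ∀ j : ℕ, j + 3 ≤ N → (a - 1) * segre (k + N + 1) d j ≤ segre (k + N + 1) d (j + 1)

lemma segre_eq (c₁ c₂ : ℤ) : ∀ j : ℕ, segre c₁ c₂ j = seg (c₁ - 2) (c₂ - c₁ + 1) j := by
  intro j
  induction j using Nat.twoStepInduction with
  | zero => rfl
  | one => rfl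
  | more n ih1 ih2 => rw [segre, seg, ih1, ih2]

lemma toCond (N : ℕ) (k d : ℤ) (h : Conditions N k d) : Cond N (k + N + 1) d where
  pos := h.pos
  rr := h.riemannRoch
  seg_nonneg := fun j hj => by rw [← segre_eq]; exact h.positive j hj
  unst := fun hD => by
    obtain ⟨a, b, h1, h2, h3, h4, h5⟩ := h.unstable hD
    exact ⟨a, b, h1, h2, h3, h4, fun j hj => by
      rw [← segre_eq, ← segre_eq]; exact h5 j hj⟩

/-- **The invariants in codimension two.** -/
theorem result (ε : ℝ) (hε : 0 < ε) : ∃ N₀ : ℕ, ∀ N : ℕ, N₀ ≤ N → ∀ k d : ℤ,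
    Conditions N k d → (d : ℝ) < (N : ℝ) ^ (4 * Real.exp (1 / 2) + 2 - ε) →
      ∃ a b : ℤ, k = a + b - N - 1 ∧ d = a * b ∧ (N : ℤ) - 1 ≤ b ∧ b ≤ a ∧
        (a - 1) ^ (N - 2) ≤ (1 + (a - b)) * (b - 1) ^ (N - 2) := by
  refine eventually_atTop.mp ?_
  filter_upwards [asy ε hε] with N h k d hc hd
  obtain ⟨a, b, h1, h2, h3, h4, h5⟩ := h (k + N + 1) d (toCond N k d hc) hd
  exact ⟨a, b, by linarith, h2, h3, h4, h5⟩

end Pool.Agent.Results.MP_014caa_ag.AlmostEqualDegrees
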