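import Pool.Agent.N17.HC.KOS
import Pool.Agent.N17.HC.LSP
import Pool.Agent.N17.HC.ALG
import Pool.Agent.N17.HC.ANA
import Pool.Agent.N17.HC.QUA
import Pool.Agent.N17.HC.FAC
import Pool.Agent.N17.HC.CUBE
import Pool.Agent.N17.HC.REC
import Pool.Agent.N17.HC.CHR
import Pool.Agent.N17.HC.DIV
import Pool.Agent.N17.HC.CUB
import Pool.Agent.N17.HC.FIN
import Pool.Agent.R852.BC.Main

/-!
# Smooth subvarieties of codimension three and four in large projective spaces

Let `X ⊂ ℙ^N` be a smooth subvariety of codimension `r` and degree `d`, `N ≥ 4 r`. By Barth and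
Larsen the groups `H^(2 i)(X, ℤ)`, `i ≤ r`, are generated by the powers of the hyperplane class `h`,
so the Chern polynomial `P = T^r - c₁ T^(r-1) + c₂ T^(r-2) - ...` of the normal bundle
(`c_i(N_X) = c_i h^i`) has integral coefficients; its complex roots `β_i` are the Chern roots of `N_X`
in units of `h`, and `c_r = β_1 ... β_r = d` (self-intersection formula). `X` is numerically a complete
intersection of hypersurfaces of degrees `a_1, ..., a_r` if and only if `β_i = a_i`; then it has the
degree, the canonical class, the Chern classes and the Hilbert polynomial of a complete intersection.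
The following is known about `P`:

* `N_X(-1)`, a quotient of `T_ℙ(-1)`, is globally generated, so its Chern classes are not negative:
  the coefficients of `P(T + 1)` have the signs `+, -, +, ...`;
* `χ(O_X(t))` is an integer for all `t`; by the theorem of Riemann-Roch it is the Koszul sum
  `Σ_S (-1)^|S| χ(ℙ^N, O(t - Σ_(i ∈ S) β_i))`;
* `χ(N_X^*(t))` is an integer for all `t`; it is `Σ_i χ(O_X(t - β_i))`.

We show: for `r = 3` and `r = 4`, all `ε > 0` and all `N ≥ N₀(ε)`: if

  `d ≤ N ^ (2 √e / (r - 1) - ε)`,

then all `β_i` are positive integers: `X` is numerically a complete intersection. The exponents are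
`1.648... - ε` for `r = 3` and `1.099... - ε` for `r = 4`.

The proof. (1) The two integrality conditions imply that `d^(k + 1) Σ_i C(-β_i, k)` is an integer for
`k ≤ N - r`: the generating functions of the Koszul sums are `E = Π (1 - (1+w)^(-β_i))` and
`F = E · Σ (1+w)^(-β_i)`, and `E = w^r (d + ...)`. (2) So the trace of `q(T) (T^p - T)` on
`ℤ[T]/(P)` is divisible by `p` for all primes `r < p ≤ N - 2 r + 1` not dividing `d` and all `q` of
degree less than `r`, and `P` splits modulo `p`. (3) The discriminant of `P`, at most `C d^(2 r - 2)`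
in absolute value, is a square modulo all these primes, so it is a square by the bound of Burgess and
the trick of Vinogradov. (4) If `P` is a cubic polynomial whose discriminant `s²` is a square and does
not split, then by cubic reciprocity (of the starting library) there is a cubic Dirichlet character
modulo a number `≤ 9 |s|` which is `1` at all primes which split `P`: a contradiction to the
inequality of Polya and Vinogradov and the trick of Vinogradov. (5) For `r = 4` we apply this to the
resolvent cubic, and (3) to the differences of pairs of roots.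
-/

set_option autoImplicit false

namespace Pool.Agent.Results.MP_014caa_ag.CodimensionThreeFour

open Polynomial

/-- The Chern roots: the complex roots of `P` with multiplicities. -/
noncomputable def chernRoots (P : ℤ[X]) : Multiset ℂ := (P.map (Int.castRingHom ℂ)).roots

/-- `χ(ℙ^N, O(x)) = (x + 1) ... (x + N) / N!`. -/
noncomputable def chiPN (N : ℕ) (x : ℂ) : ℂ :=
  (∏ j ∈ Finset.range N, (x + j + 1)) / N.factorial

/-- `χ(O_X(x)) = Σ_S (-1)^|S| χ(ℙ^N, O(x - β_S))`, `S` running over the submultisets of the multiset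
of the Chern roots of the normal bundle, `β_S` the sum of the elements of `S`. -/
noncomputable def chiX (N : ℕ) (P : ℤ[X]) (x : ℂ) : ℂ :=
  ((chernRoots P).powerset.map fun S => (-1) ^ Multiset.card S * chiPN N (x - S.sum)).sum

/-- `χ(N_X^*(x)) = Σ_i χ(O_X(x - β_i))`. -/
noncomputable def chiConormal (N : ℕ) (P : ℤ[X]) (x : ℂ) : ℂ :=
  ((chernRoots P).map fun b => chiX N P (x - b)).sum

open Pool.Agent.N17.HC in
theorem bin_eq (N : ℕ) (x : ℂ) : bin N (N + x) = chiPN N x := by
  unfold bin chiPN
  congr 1
  rw [← Finset.prod_range_reflect]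
  refine Finset.prod_congr rfl fun j hj => ?_
  have hj' := Finset.mem_range.1 hj
  rw [show N - 1 - j = N - (j + 1) by omega, Nat.cast_sub (by omega)]
  push_cast
  ring

open Pool.Agent.N17.HC in
theorem kos_eq (N : ℕ) (P : ℤ[X]) (x : ℂ) : kos N (rootsOf P) (N + x) = chiX N P x := by
  unfold kos chiX
  change Multiset.sum (Multiset.map _ (Multiset.powerset (chernRoots P))) = _
  congr 1
  refine Multiset.map_congr rfl fun S _ => ?_
  rw [add_sub_assoc, bin_eq]

/-- **Smooth subvarieties of codimension three and four are numerically complete intersections if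
their degree is at most `N ^ (2 √e / (r - 1) - ε)`.** -/
theorem result (ε : ℝ) (hε : 0 < ε) : ∃ N₀ : ℕ, ∀ N : ℕ, N₀ ≤ N → ∀ r : ℕ, r = 3 ∨ r = 4 →
    ∀ P : ℤ[X], P.Monic → P.natDegree = r →
    -- the Chern classes of `N_X(-1)` are not negative
    (∀ i, 0 ≤ (-1) ^ (r - i) * (P.comp (X + 1)).coeff i) →
    -- the Euler characteristics of `O_X(t)` and of `N_X^*(t)` are integers
    (∀ t : ℤ, ∃ z : ℤ, chiX N P t = z) →
    (∀ t : ℤ, ∃ z : ℤ, chiConormal N P t = z) →
    -- the degree `d = |P(0)|`
    (|P.coeff 0| : ℝ) ≤ (N : ℝ) ^ (2 * Real.exp (1 / 2) / (r - 1) - ε) →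
    -- `P` is the polynomial of a complete intersection
    ∃ a : Fin r → ℤ, (∀ i, 1 ≤ a i) ∧ P = ∏ i, (X - C (a i)) := by
  have hM2 : Pool.Agent.N17.HC.S_M2 := Pool.Agent.R852.BC.main2
  have hCUB := Pool.Agent.N17.HC.t_CUB Pool.Agent.N17.HC.t_ALG hM2 Pool.Agent.N17.HC.t_FAC
    Pool.Agent.N17.HC.t_CUBE Pool.Agent.N17.HC.t_REC Pool.Agent.N17.HC.t_CHR
    Pool.Agent.N17.HC.t_DIV Pool.Agent.N17.HC.t_ANA
  obtain ⟨N₀, h⟩ := Pool.Agent.N17.HC.final Pool.Agent.N17.HC.t_KOS Pool.Agent.N17.HC.t_LSP hCUB
    (Pool.Agent.N17.HC.t_QUA hCUB hM2) ε hε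
  refine ⟨N₀, fun N hN r hr P hP hd hpos h1 h2 hle => h N hN r hr P hP hd hpos ?_ ?_ hle⟩
  · intro t
    obtain ⟨z, hz⟩ := h1 t
    exact ⟨z, by rw [kos_eq]; exact hz⟩
  · intro t
    obtain ⟨z, hz⟩ := h2 t
    refine ⟨z, ?_⟩
    rw [← hz]
    unfold chiConormal
    change Multiset.sum (Multiset.map _ (chernRoots P)) = _
    congr 1
    refine Multiset.map_congr rfl fun b _ => ?_
    rw [add_sub_assoc, kos_eq]

end Pool.Agent.Results.MP_014caa_ag.CodimensionThreeFour
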