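import Pool.Agent.N998.CT.Quart

set_option autoImplicit false

/-!
# Smooth subvarieties of codimension two which are not complete intersections have large degree

Let `X ⊂ ℙ^N`, `N ≥ 7`, be a smooth subvariety of codimension two and degree `d` which is not a
complete intersection. It is subcanonical (Barth-Larsen), `ω_X = O_X(k)`; there is a vector bundle `E`
of rank two on `ℙ^N` with the Chern classes `c₁ = k + N + 1`, `c₂ = d` and a section `s` with the
scheme of zeros `X`, and `E|X = N_X` (Serre). We use the following facts.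

(1) The Riemann-Roch conditions for `T² - c₁ T + d`.

(2) `N_X(-1)` is globally generated, with the Chern classes `(c₁ - 2) h`, `(d - c₁ + 1) h²`. Let `M` be
the tautological class on `P = P(N_X(-1))` (line bundle quotients). It is nef, and the intersection
number of `M^(j+1)` and `h^(N-2-j)` on `P` is `d h_j`, where `h_0 = 1`, `h_1 = c₁ - 2`,
`h_(j+2) = (c₁ - 2) h_(j+1) - (d - c₁ + 1) h_j`. So `h_j ≥ 0` for `j ≤ N - 2`.

(3) Let `4 d ≤ c₁²`. Then `E` is not stable (Barth, Bogomolov). Let `a` be the largest integer such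
that `F = E(-a)` has a section `t ≠ 0`, and `b = c₁ - a ≤ a`. The scheme of zeros `Z` of `t` has
codimension two; it is not empty, since `E` does not split; and `deg Z = c₂(F) = d - a b > 0`,
`c₁(F) = b - a ≤ 0`. The form `g = ⟨t, s⟩` of degree `b` vanishes on `X`, and no form of smaller degree
does; so `b > 0`. We have `t|X ≠ 0`: otherwise `g` is in the square of the ideal of `X`, and the
partial derivatives of `g` vanish on `X`. So `t` defines an effective divisor of the class
`M - (a - 1) h` on `P`; its intersection number with `M^j`, `h^(N-2-j)` is not negative: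
`h_j ≥ (a - 1) h_(j-1)` for `1 ≤ j ≤ N - 2`.

(4) In the case (3), `deg Z ≥ N² / 4` (integral part). Proof: let `Z_m` be the set of the points where
`t` vanishes to the order `m` at least. At the points of `Z_m` the leading terms of `t` define a map
`φ` from the dual of `F` to `Sym^m Ω ⊂ Sym^m (O(-1)^(N+1)) = O(-m)^M`, where `Ω` are the differentials
of `ℙ^N`. Let `S` be a component of `Z_m` of positive dimension. The map `φ` has rank at most one on
`S`, since a map from `det F* = O(a - b)` to a sum of line bundles `O(-2m)` is zero on `S`. Let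
`dim S ≥ 2`. Then `Z_(m+1) ∩ S`, the set of zeros of `φ` on `S`, is of codimension at most two in `S`
and not empty: otherwise there is a surface `S' ⊂ S`, an intersection with general hyperplanes, where
`φ` has rank one everywhere. So (on a resolution of `S'`) the image of `φ` is a line subbundle `L` of
`O(-m)^M`, the dual of `L` is `O(m) ⊗ Q` with `Q` globally generated, the kernel of `φ` has the class
`(a - b) h - L`, and `c₂(F) h² = L ((a - b) h - L) = - (m h + Q) ((a - b + m) h + Q) ≤ 0`, which is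
false. Hence `dim Z_m ≥ N - 2 m` for `2 m ≤ N`. For `m = N / 2` there is a point `p` where `t` vanishes
to the order `m`, and for odd `N` and `m = (N - 1) / 2` a point where `φ` has rank at most one, that
is, `t = (f, f')` with `f` and `f'` of the orders `m` and `m + 1` at least. A general plane through `p`
meets `Z` in a finite scheme, of degree `deg Z`, and the local intersection number at `p` is at least
`m²`, and at least `m (m + 1)` for odd `N`.

We show: for all `N ≥ 12`

  `d > (N - 1) (N - 2)²` and `500 d > N⁴`,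

and for all sufficiently large `N`

  `d > (N - 2)² [N² / 4]`.

In other words, every smooth subvariety of codimension two of `ℙ^N`, `N ≥ 12`, of degree at most
`(N - 1) (N - 2)²` (or `N⁴ / 500`), and for large `N` of degree at most `(N - 2)² [N² / 4]`, is a
complete intersection. (Known: `d < (N - 1) (N + 5)`, Ran, Holme and Schneider.)

Proof. Let `D = c₁² - 4 d ≥ 0`, `z = d - a b`, and `x`, `y` the roots of
`T² - (c₁ - 2) T + (d - c₁ + 1)`. We have `h_(j+1) = y^(j+1) + x h_j = x^(j+1) + y h_j`, so that (3)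
gives `(a - 1 - x) h_j ≤ y^(j+1)`, `(a - 1 - y) h_j ≤ x^(j+1)`; the product of these inequalities is
`z h_j² ≤ (x y)^(j+1)`; since `h_j ≥ (j + 1) (x y)^(j/2)`, we get `z (N - 2)² ≤ x y = d - c₁ + 1` for
`j = N - 3`. Let `D < 0`. The roots are `ρ e^(± i θ)`, and `h_j = ρ^j sin ((j + 1) θ) / sin θ`; so
(2) gives `θ ≤ π / (N - 1)`, and `|D|` is smaller than `49 d / (N - 1)²`. By (1), `|D|` is larger than
about `N² / 9` (by the size of a product; for `N < 460` and the cubic bound by a computation of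
the divisibility conditions for `|D| < 24000`); for large `N`, `|D| ≥ N^6`, by the bound of Burgess
and the method of Vinogradov (`BurgessDegree` of the starting files).
-/

open Filter Polynomial

namespace Pool.Agent.Results.MP_014caa_ag.QuarticDegree

open Pool.Agent.R920.CH Pool.Agent.R852.BC Pool.Agent.N998.CT

/-- The numbers `h_0 = 1`, `h_1 = c₁ - 2`, `h_(j+2) = (c₁ - 2) h_(j+1) - (c₂ - c₁ + 1) h_j`: the
coefficients of `1 / (1 - (c₁ - 2) T + (c₂ - c₁ + 1) T²)`. -/
def segre (c₁ c₂ : ℤ) : ℕ → ℤ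
  | 0 => 1
  | 1 => c₁ - 2
  | j + 2 => (c₁ - 2) * segre c₁ c₂ (j + 1) - (c₂ - c₁ + 1) * segre c₁ c₂ j

/-- The conditions (1) to (4) on the integers `k` and `d`, for a smooth subvariety `X` of codimension
two and degree `d` of `ℙ^N`, `ω_X = O_X(k)`, which is not a complete intersection. -/
structure Conditions (N : ℕ) (k d : ℤ) : Prop where
  pos : 0 < d
  riemannRoch : RiemannRoch N (X ^ 2 - C (k + N + 1) * X + C d)
  positive : ∀ j : ℕ, j + 2 ≤ N → 0 ≤ segre (k + N + 1) d j
  unstable : 4 * d ≤ (k + N + 1) ^ 2 → ∃ a b : ℤ, a + b = k + N + 1 ∧ 0 < b ∧ b ≤ a ∧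
    (N : ℤ) ^ 2 / 4 ≤ d - a * b ∧
    ∀ j : ℕ, j + 3 ≤ N → (a - 1) * segre (k + N + 1) d j ≤ segre (k + N + 1) d (j + 1)

lemma segre_eq (c₁ c₂ : ℤ) : ∀ j : ℕ, segre c₁ c₂ j = seg (c₁ - 2) (c₂ - c₁ + 1) j := by
  intro j
  induction j using Nat.twoStepInduction with
  | zero => rfl
  | one => rfl
  | more n ih1 ih2 => rw [segre, seg, ih1, ih2]

lemma bound_pos (N : ℕ) (hN : 3 ≤ N) (k d : ℤ) (hc : Conditions N k d)
    (hD : 4 * d ≤ (k + N + 1) ^ 2) : ((N : ℤ) - 2) ^ 2 * ((N : ℤ) ^ 2 / 4) < d := by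
  obtain ⟨a, b, hab, hb, hba, hz, h⟩ := hc.unstable hD
  have hN3 : (3 : ℤ) ≤ N := by exact_mod_cast hN
  have hz0 : (0 : ℤ) < (N : ℤ) ^ 2 / 4 := by
    have h9 : (9 : ℤ) ≤ (N : ℤ) ^ 2 := by nlinarith
    omega
  rw [mul_comm]
  exact pos_bound N hN (k + N + 1) d a b _ hb hba hab hz0 hz hD fun j hj => by
    rw [← segre_eq, ← segre_eq]; exact h j hj

/-- **The degree in codimension two.** -/
theorem result :
    (∀ N : ℕ, 12 ≤ N → ∀ k d : ℤ, Conditions N k d →
      ((N : ℤ) - 1) * ((N : ℤ) - 2) ^ 2 < d ∧ (N : ℤ) ^ 4 < 500 * d) ∧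
    ∃ N₀ : ℕ, ∀ N : ℕ, N₀ ≤ N → ∀ k d : ℤ, Conditions N k d →
      ((N : ℤ) - 2) ^ 2 * ((N : ℤ) ^ 2 / 4) < d := by
  refine ⟨?_, eventually_atTop.mp ?_⟩
  · intro N hN k d hc
    have hRR : RiemannRoch N (poly2 (k + N + 1) d) := hc.riemannRoch
    have hN12 : (12 : ℤ) ≤ N := by exact_mod_cast hN
    rcases lt_or_ge ((k + N + 1) ^ 2) (4 * d) with h | h
    · have hs : ∀ j : ℕ, j + 2 ≤ N → 0 ≤ seg (k + N + 1 - 2) (d - (k + N + 1) + 1) j :=
        fun j hj => by rw [← segre_eq]; exact hc.positive j hj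
      exact ⟨cubic_neg N hN (k + N + 1) d hRR hs h, quart_neg N hN (k + N + 1) d hRR hs h⟩
    · have h1 := bound_pos N (by omega) k d hc h
      have h2 : (N : ℤ) ^ 2 ≤ 4 * ((N : ℤ) ^ 2 / 4) + 3 := by omega
      set n : ℤ := (N : ℤ) with hn
      set w : ℤ := n ^ 2 / 4 with hw
      constructor
      · have h3 : n - 1 ≤ w := by nlinarith
        have h4 : (n - 2) ^ 2 * (n - 1) ≤ (n - 2) ^ 2 * w :=
          mul_le_mul_of_nonneg_left h3 (by positivity)
        linarith
      · have h3 : (n - 2) ^ 2 * (n ^ 2 - 3) ≤ (n - 2) ^ 2 * (4 * w) :=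
          mul_le_mul_of_nonneg_left (by linarith) (by positivity)
        have h4 : n ^ 2 ≤ 2 * (n ^ 2 - 3) := by nlinarith
        have h5 : n ^ 2 ≤ 2 * (n - 2) ^ 2 := by nlinarith
        have h6 : n ^ 2 * n ^ 2 ≤ (2 * (n - 2) ^ 2) * (2 * (n ^ 2 - 3)) :=
          mul_le_mul h5 h4 (by positivity) (by positivity)
        nlinarith
  · filter_upwards [stable 1 one_pos, eventually_ge_atTop 3] with N h1 hN k d hc
    rcases lt_or_ge ((k + N + 1) ^ 2) (4 * d) with h | h
    · have hRR : RiemannRoch N (poly2 (k + N + 1) d) := hc.riemannRoch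
      obtain ⟨g1, -, -⟩ := h1 (k + N + 1) d (fun j hj => by
        rw [← segre_eq]; exact hc.positive j hj) hRR h
      have hN1 : (1 : ℝ) ≤ N := by exact_mod_cast (by omega : 1 ≤ N)
      have h2 : (N : ℝ) ^ (4 : ℝ) ≤ (N : ℝ) ^ (4 * Real.exp (1 / 2) + 2 - 1) := by
        apply Real.rpow_le_rpow_of_exponent_le hN1
        have := exp_half_bounds.1
        linarith
      have h3 : (N : ℝ) ^ 4 ≤ d := by
        rw [show (4 : ℝ) = ((4 : ℕ) : ℝ) by norm_num, Real.rpow_natCast] at h2
        exact h2.trans g1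
      have h4 : (N : ℤ) ^ 4 ≤ d := by exact_mod_cast h3
      have h5 : 4 * ((N : ℤ) ^ 2 / 4) ≤ (N : ℤ) ^ 2 := by omega
      have hN3 : (3 : ℤ) ≤ N := by exact_mod_cast hN
      set n : ℤ := (N : ℤ) with hn
      set w : ℤ := n ^ 2 / 4 with hw
      have h6 : (n - 2) ^ 2 * (4 * w) ≤ (n - 2) ^ 2 * n ^ 2 :=
        mul_le_mul_of_nonneg_left h5 (by positivity)
      have h7 : (n - 2) ^ 2 ≤ n ^ 2 := by nlinarith
      have h8 : (n - 2) ^ 2 * n ^ 2 ≤ n ^ 2 * n ^ 2 :=
        mul_le_mul_of_nonneg_right h7 (by positivity)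
      have h9 : 0 < n ^ 2 * n ^ 2 := by positivity
      nlinarith
    · exact bound_pos N hN k d hc h

end Pool.Agent.Results.MP_014caa_ag.QuarticDegree
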